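import Pool.Agent.H498.BT.Key
import Pool.Agent.H498.BT.Bra
import Pool.Agent.H498.BT.TwoC

/-!
# The Breuil-Mezard conjecture for `GL_d`: the types of one fixed Hodge type

`K / ℚ_p` finite with ring of integers `O`, uniformizer `ϖ` and residue field `k` (`q` elements), `d = n + 1`,
`S = Hom(K, E)`, `ρ̄ : G_K → GL_d(𝔽)`. We fix an embedding `ι` of `k` into an algebraically closed field `F` of
characteristic `p`; the embedding `σ ∈ S` induces the residue embedding `x ↦ ι(x) ^ (p ^ κ σ)`. `t : Fˣ → ℂˣ` is an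
injective homomorphism (Brauer lift).

* `h : Wt S d`, `Dom h`: a tuple of regular labelled Hodge-Tate weights `h_{σ,1} > ... > h_{σ,d}`
  (`h = λ + (d - 1, ..., 0)` for the Hodge type `λ`; `h = ρ` is the Hodge type zero). `s h` is the Weyl character of
  highest weight `h - ρ` (`IsWeyl`), `evx (pnt κ p t x) (s h)` its value at the lift of the semisimple class with
  the eigenvalues `x` (`IsEigen`).
* `D`: the Serre weights, irreducible (`IrrRep`) and pairwise non-isomorphic (`IsoRep`) representations of `GL_d(k)`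
  over `F`, with their Brauer characters `D.br w`; `w₀` is the trivial one.
* `T` is the set of inertial types, `θ τ` the Brauer character of the reduction of `σ(τ)`, and `mult τ h w`
  the multiplicity of the Serre weight `w` in the reduction of `L_{λ,τ}` (`IsMult`).
* `Toral π p e β` (`R = O / ϖ ^ (2 m)`, `e = ϖ ^ m`, so that `e x = e y` means `x ≡ y mod ϖ ^ m`): every
  `x ∈ GL_d(R)` which commutes with `β` modulo `ϖ ^ m` has a reduction of order prime to `p` in `GL_d(k)`.
  `IsToralRep`: an irreducible complex representation of `GL_d(O / ϖ ^ (2 m))` with a nonzero vector on which the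
  `g ≡ 1 mod ϖ ^ m` act through `g ↦ Ψ (tr (β (g - 1)))` for some toral `β`. (For primitive `Ψ` these are the types
  `σ(τ)` of the direct sums `τ` of inductions of characters of units of unramified extensions of `K` which are
  sufficiently ramified and in general position; this remark is not used.)
* `IsReduction π p θ ρ`: `θ` is the Brauer character of the reduction of `ρ`. `hT`: the toral representations
  are among the `σ(τ)`. `IsToralType`: `θ` comes from a toral representation.

**Theorem.** Let `q ^ (m - 1) ≥ d`.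

(1) For every Hodge type `h` the following are equivalent: (a) the Weyl character of `h` vanishes at no lifted
semisimple class of `GL_d(k)`; (b) non-negative integers `μ_w`, one for each Serre weight, are determined by the sums
`∑ mult τ h w μ_w` for the toral types `τ` of level `2 m`; (c) they are determined by the sums for all inertial types
`τ`; (d) elements `Z_w` of any torsion-free group (for example cycles) are determined by the sums for toral types.
(2) (a) holds for the Hodge type zero. So the potentially crystalline multiplicities `e(R^{0,τ}/ϖ)` of Hodge type zero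
determine at most one family `μ_w`, and for every Hodge type `h` and inertial type `τ` there are
universal integers `N > 0` and `b` such that `N mult τ h w = ∑ b_τ' mult τ' ρ w`, where `τ'` runs over toral types.
(3) For `d = 2`, (a) holds if and only if all `h_{σ,1} - h_{σ,2}` are prime to `q ^ 2 - 1`.
-/

set_option autoImplicit false

namespace Pool.Agent.Results.MP_7cb106_nt.HodgeTypeZeroSuffices

open Pool.Agent.N28.BM Pool.Agent.H498.BT Matrix

/-- The sums `∑ mult τ h w μ_w` over the types `τ` with `Q τ` determine the non-negative integers `μ_w`. -/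
def Determine {T W H : Type} [Fintype W] (mult : T → H → W → ℕ) (h : H) (Q : T → Prop) : Prop :=
  ∀ μ μ' : W → ℕ, (∀ τ, Q τ → ∑ w, mult τ h w * μ w = ∑ w, mult τ h w * μ' w) → μ = μ'

/-- The sums `∑ mult τ h w Z_w` over the types `τ` with `Q τ` determine the elements `Z_w` of any torsion-free
abelian group. -/
def DetermineCycles {T W H : Type} [Fintype W] (mult : T → H → W → ℕ) (h : H) (Q : T → Prop) : Prop :=
  ∀ (M : Type) [AddCommGroup M] [IsAddTorsionFree M] (Z Z' : W → M),
    (∀ τ, Q τ → ∑ w, mult τ h w • Z w = ∑ w, mult τ h w • Z' w) → Z = Z'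

/-- **Which Hodge types determine the Breuil-Mezard multiplicities.** -/
theorem result {k F : Type} [Field k] [Fintype k] [Field F] [IsAlgClosed F] (ι : k →+* F)
    {p f : ℕ} [Fact p.Prime] [CharP F p] (hk : Fintype.card k = p ^ f)
    {S : Type} [Fintype S] [DecidableEq S] {n : ℕ} (κ : S → ZMod f)
    (t : Fˣ →* ℂˣ) (ht : Function.Injective t)
    (s : Wt S (n + 1) → P S (n + 1)) (hs : IsWeyl s) (D : SerreWeights k F (n + 1) t)
    (hirr : ∀ w, IrrRep (D.rep w)) (hiso : ∀ w w', w ≠ w' → ¬ IsoRep (D.rep w) (D.rep w'))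
    (w₀ : D.W) (hw₀ : D.dim w₀ = 1 ∧ ∀ g, D.rep w₀ g = 1)
    {O : Type} [CommRing O] [IsDomain O] [IsDiscreteValuationRing O] {ϖ : O} (hϖ : Irreducible ϖ)
    {m : ℕ} (hm : 1 ≤ m) (hnm : n + 1 ≤ Fintype.card k ^ (m - 1))
    (π : (O ⧸ Ideal.span {ϖ ^ (2 * m)}) →+* k) (hπ : Function.Surjective π)
    (Ψ : AddChar (O ⧸ Ideal.span {ϖ ^ (2 * m)}) ℂ)
    {T : Type} (θ : T → GL (Fin (n + 1)) k → ℂ) (mult : T → Wt S (n + 1) → D.W → ℕ)
    (hmult : ∀ τ, IsMult ι (p := p) κ t s D (θ τ) (mult τ))
    (hT : ∀ (V : Type) [AddCommGroup V] [Module ℂ V] [FiniteDimensional ℂ V]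
      (ρ : Representation ℂ (GL (Fin (n + 1)) (O ⧸ Ideal.span {ϖ ^ (2 * m)})) V),
      IsToralRep π p (Ideal.Quotient.mk (Ideal.span {ϖ ^ (2 * m)}) (ϖ ^ m)) Ψ ρ →
        ∃ τ, IsReduction π p (θ τ) ρ) :
    (∀ h, Dom h → List.TFAE
      [∀ (g : GL (Fin (n + 1)) k) (x : Fin (n + 1) → Fˣ), IsEigen ι g x → evx (pnt κ p t x) (s h) ≠ 0,
       Determine mult h fun τ => IsToralType π p (Ideal.Quotient.mk (Ideal.span {ϖ ^ (2 * m)}) (ϖ ^ m)) Ψ (θ τ),
       Determine mult h fun _ => True,
       DetermineCycles mult h fun τ =>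
        IsToralType π p (Ideal.Quotient.mk (Ideal.span {ϖ ^ (2 * m)}) (ϖ ^ m)) Ψ (θ τ)]) ∧
    (∀ (g : GL (Fin (n + 1)) k) (x : Fin (n + 1) → Fˣ), IsEigen ι g x →
      evx (pnt κ p t x) (s fun _ => rho n) ≠ 0) ∧
    (∀ (τ : T) (h : Wt S (n + 1)), ∃ N : ℕ, 0 < N ∧
      ∃ b : {τ // IsToralType π p (Ideal.Quotient.mk (Ideal.span {ϖ ^ (2 * m)}) (ϖ ^ m)) Ψ (θ τ)} →₀ ℤ,
        ∀ w, (N : ℤ) * (mult τ h w : ℤ) = b.sum fun τ' z => z * (mult τ' (fun _ => rho n) w : ℤ)) ∧
    (n = 1 → ∀ h, Dom h →
      ((∀ (g : GL (Fin (n + 1)) k) (x : Fin (n + 1) → Fˣ), IsEigen ι g x → evx (pnt κ p t x) (s h) ≠ 0) ↔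
        ∀ σ, IsCoprime (h σ 0 - h σ (Fin.last n)) ((Fintype.card k : ℤ) ^ 2 - 1))) := by
  have hpk : CharP k p := by
    refine ⟨fun x => ?_⟩
    rw [← CharP.cast_eq_zero_iff F p, ← map_natCast ι, map_eq_zero]
  have hBr := brauer p t ht D.dim D.rep hirr hiso D.br D.br_eq
  have hw₁ : ∀ g, D.br w₀ g = 1 := by
    intro g
    rw [D.br_eq w₀ g (fun _ => 1) (by
      unfold IsEigen
      rw [hw₀.2 g, Units.val_one, Matrix.charpoly_one, Polynomial.map_id]
      simp)]
    simp [hw₀.1]
  set R := O ⧸ Ideal.span {ϖ ^ (2 * m)} with hR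
  set e : R := Ideal.Quotient.mk (Ideal.span {ϖ ^ (2 * m)}) (ϖ ^ m) with he
  have hfin : Finite R := finite_quot hϖ π hπ hm (2 * m)
  have hNS := nilSurj hϖ π hπ
  have hSD : SelfDual e := selfDual hϖ
  have he0 : e ≠ 0 := e_ne hϖ hm
  obtain ⟨c, hc0, hcd⟩ := exists_c hϖ π hπ hm (n + 1) (by rw [Nat.card_eq_fintype_card]; exact hnm)
  have span := fun h hh hne => mult_span (p := p) ι κ t s D hNS hSD he0 c hc0 hcd Ψ θ mult hmult hT hBr h hh hne
  have hrho : Dom (fun _ : S => rho n) := by
    intro σ i j hij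
    simp only [rho]
    have : (i : ℕ) < j := hij
    omega
  have hz : ∀ (g : GL (Fin (n + 1)) k) (x : Fin (n + 1) → Fˣ), IsEigen ι g x →
      evx (pnt κ p t x) (s fun _ => rho n) ≠ 0 := by
    intro g x _
    rw [s_rho s hs, map_one]
    exact one_ne_zero
  refine ⟨fun h hh => ?_, hz, fun τ h => ?_, ?_⟩
  · tfae_have 1 → 4 := by
      intro h1 M _ _ Z Z' hZ
      exact eq_of_top _ (span h hh h1) (fun N x hN hx => (IsAddTorsionFree.zsmul_eq_zero_iff_right hN).1 hx) Z Z'
        (fun τ => hZ τ.1 τ.2)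
    tfae_have 4 → 2 := by
      intro h4 μ μ' hμ
      have := h4 ℤ (fun w => (μ w : ℤ)) (fun w => (μ' w : ℤ)) (fun τ hτ => by
        have := hμ τ hτ
        simp only [nsmul_eq_mul]
        exact_mod_cast this)
      funext w
      exact_mod_cast congrFun this w
    tfae_have 2 → 3 := fun h2 μ μ' hμ => h2 μ μ' fun τ _ => hμ τ trivial
    tfae_have 3 → 1 := by
      intro h3 g x hx h0
      obtain ⟨μ, μ', hne, hμ⟩ := not_determined (fun τ => mult τ h) (fun w => D.br w g) w₀
        (by rw [hw₁]; exact one_ne_zero) (fun τ => by rw [hmult τ h hh g x hx, h0, zero_mul])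
      exact hne (h3 μ μ' fun τ _ => hμ τ)
    tfae_finish
  · exact rel_of_top _ (span _ hrho hz) (mult τ h)
  · intro hn h hh
    subst hn
    exact two_criterion ι hk κ t ht s hs h hh

end Pool.Agent.Results.MP_7cb106_nt.HodgeTypeZeroSuffices
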